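import Mathlib

/-!
MP_bd2bbd_co, Q1 (negative answer): a monotone consistent path system of diameter `2` on seven
vertices that is not strictly metric.
-/

namespace Pool.Agent.Results.MP_bd2bbd_co.MonotoneNotStrictlyMetric

/-- a path system on `[n]` (vertices `0 < 1 < ... < n-1`): one simple path of the complete graph
for every (unordered) pair -/
structure PathSystem (n : ℕ) where
  P : ∀ u v : Fin n, (⊤ : SimpleGraph (Fin n)).Walk u v
  isPath : ∀ u v, (P u v).IsPath
  symm : ∀ u v, P v u = (P u v).reverse

variable {n : ℕ}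

/-- consistency -/
def Consistent (S : PathSystem n) : Prop :=
  ∀ u v a, a ∈ (S.P u v).support → S.P u v = (S.P u a).append (S.P a v)

/-- the largest number of edges of a path of the system is `2` -/
def DiamTwo (S : PathSystem n) : Prop :=
  (∀ u v, (S.P u v).length ≤ 2) ∧ ∃ u v, (S.P u v).length = 2

/-- `{i,j}` is in the domain of the resume `f`, and `f(i,j) = x` -/
def Resume (S : PathSystem n) (i j x : Fin n) : Prop :=
  (S.P i j).length = 2 ∧ x ∈ (S.P i j).support ∧ x ≠ i ∧ x ≠ j

/-- monotonicity -/
def Monotone (S : PathSystem n) : Prop :=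
  ∀ i j k x y, Resume S i j x → Resume S i k y → j ≤ k → x ≤ y

/-- weight of a walk -/
noncomputable def weight (w : Sym2 (Fin n) → ℝ) {u v : Fin n}
    (p : (⊤ : SimpleGraph (Fin n)).Walk u v) : ℝ := (p.edges.map w).sum

/-- strictly metric: some positive edge weights make every path of the system the unique path of
minimum weight between its ends -/
def StrictlyMetric (S : PathSystem n) : Prop :=
  ∃ w : Sym2 (Fin n) → ℝ, (∀ e ∈ (⊤ : SimpleGraph (Fin n)).edgeSet, 0 < w e) ∧
    ∀ u v (q : (⊤ : SimpleGraph (Fin n)).Walk u v), q.IsPath → q ≠ S.P u v →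
      weight w (S.P u v) < weight w q

/-! ### The example -/

/-- interior vertex (`u` itself if the path is an edge); with the vertices named `1,...,7` the
resume is `16→2, 17→4, 24→3, 27→5, 35→1, 37→6` -/
def mid (u v : Fin 7) : Fin 7 :=
  if (u = 0 ∧ v = 5) ∨ (u = 5 ∧ v = 0) then 1 else
  if (u = 0 ∧ v = 6) ∨ (u = 6 ∧ v = 0) then 3 else
  if (u = 1 ∧ v = 3) ∨ (u = 3 ∧ v = 1) then 2 else
  if (u = 1 ∧ v = 6) ∨ (u = 6 ∧ v = 1) then 4 else
  if (u = 2 ∧ v = 4) ∨ (u = 4 ∧ v = 2) then 0 else
  if (u = 2 ∧ v = 6) ∨ (u = 6 ∧ v = 2) then 5 else u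

/-- vertex lists of the paths -/
def sup (u v : Fin 7) : List (Fin 7) :=
  if u = v then [u] else if u ≠ mid u v ∧ mid u v ≠ v then [u, mid u v, v] else [u, v]

/-- the paths -/
def mkP (u v : Fin 7) : (⊤ : SimpleGraph (Fin 7)).Walk u v :=
  if h : u = v then (SimpleGraph.Walk.nil : (⊤ : SimpleGraph (Fin 7)).Walk u u).copy rfl h
  else if h2 : u ≠ mid u v ∧ mid u v ≠ v then
    SimpleGraph.Walk.cons (v := mid u v) h2.1 (SimpleGraph.Walk.cons h2.2 SimpleGraph.Walk.nil)
  else SimpleGraph.Walk.cons h SimpleGraph.Walk.nil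

theorem mkP_support (u v : Fin 7) : (mkP u v).support = sup u v := by
  unfold mkP sup
  by_cases h : u = v
  · rw [dif_pos h, if_pos h]; subst h; simp
  · rw [dif_neg h, if_neg h]
    by_cases h2 : u ≠ mid u v ∧ mid u v ≠ v
    · rw [dif_pos h2, if_pos h2]; simp
    · rw [dif_neg h2, if_neg h2]; simp

/-- the example -/
def ex7 : PathSystem 7 where
  P := mkP
  isPath := by
    intro u v
    rw [SimpleGraph.Walk.isPath_def, mkP_support]
    revert u v
    decide
  symm := by
    intro u v
    apply SimpleGraph.Walk.ext_support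
    rw [SimpleGraph.Walk.support_reverse, mkP_support, mkP_support]
    revert u v
    decide

theorem length_eq (u v : Fin 7) : (mkP u v).length + 1 = (sup u v).length := by
  rw [← mkP_support, SimpleGraph.Walk.length_support]

theorem ex7_consistent : Consistent ex7 := by
  intro u v a ha
  apply SimpleGraph.Walk.ext_support
  show (mkP u v).support = ((mkP u a).append (mkP a v)).support
  change a ∈ (mkP u v).support at ha
  rw [SimpleGraph.Walk.support_append, mkP_support, mkP_support, mkP_support]
  rw [mkP_support] at ha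
  revert u v a
  decide

theorem ex7_diam : DiamTwo ex7 := by
  refine ⟨?_, 0, 5, ?_⟩
  · intro u v
    have h := length_eq u v
    have h2 : ∀ u v, (sup u v).length ≤ 3 := by decide
    have := h2 u v
    show (mkP u v).length ≤ 2
    omega
  · have h := length_eq 0 5
    have h2 : (sup 0 5).length = 3 := by decide
    show (mkP 0 5).length = 2
    omega

theorem ex7_monotone : Monotone ex7 := by
  intro i j k x y h1 h2 hjk
  obtain ⟨a1, a2, a3, a4⟩ := h1
  obtain ⟨b1, b2, b3, b4⟩ := h2
  change x ∈ (mkP i j).support at a2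
  change y ∈ (mkP i k).support at b2
  rw [mkP_support] at a2 b2
  clear a1 b1
  have key : ∀ i j k : Fin 7, j ≤ k → ∀ x ∈ sup i j, x ≠ i → x ≠ j → ∀ y ∈ sup i k, y ≠ i →
      y ≠ k → x ≤ y := by decide
  exact key i j k hjk x a2 a3 a4 y b2 b3 b4

theorem ex7_not_strict : ¬ StrictlyMetric ex7 := by
  rintro ⟨w, -, hw⟩
  have key : ∀ u x v y : Fin 7, u ≠ x → x ≠ v → u ≠ v → sup u v = [u, y, v] → y ≠ x →
      w s(u, y) + w s(y, v) < w s(u, x) + w s(x, v) := by
    intro u x v y h1 h2 h3 hs hy
    have hq := hw u v (SimpleGraph.Walk.cons h1 (SimpleGraph.Walk.cons h2 SimpleGraph.Walk.nil))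
      (by rw [SimpleGraph.Walk.isPath_def]; simp [h1, h2, h3]) (by
        intro he
        have := congrArg SimpleGraph.Walk.support he
        change _ = (mkP u v).support at this
        rw [mkP_support, hs] at this
        simp at this
        exact hy this.symm)
    have hm : mid u v = y ∧ u ≠ y ∧ y ≠ v := by
      unfold sup at hs
      rw [if_neg h3] at hs
      by_cases h4 : u ≠ mid u v ∧ mid u v ≠ v
      · rw [if_pos h4] at hs
        simp at hs
        exact ⟨hs, hs ▸ h4.1, hs ▸ h4.2⟩
      · rw [if_neg h4] at hs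
        simp at hs
    have hP : weight w (ex7.P u v) = w s(u, y) + w s(y, v) := by
      show weight w (mkP u v) = _
      obtain ⟨rfl, h5, h6⟩ := hm
      unfold mkP
      rw [dif_neg h3, dif_pos ⟨h5, h6⟩]
      simp [weight]
    rw [hP] at hq
    simpa [weight] using hq
  have c : ∀ a b : Fin 7, w s(a, b) = w s(b, a) := fun a b => by rw [Sym2.eq_swap]
  -- with the names `1,...,7`
  have e1 := key 0 2 5 1 (by decide) (by decide) (by decide) (by decide) (by decide)
  have e2 := key 0 4 6 3 (by decide) (by decide) (by decide) (by decide) (by decide)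
  have e3 := key 1 0 3 2 (by decide) (by decide) (by decide) (by decide) (by decide)
  have e4 := key 1 5 6 4 (by decide) (by decide) (by decide) (by decide) (by decide)
  have e5 := key 2 1 4 0 (by decide) (by decide) (by decide) (by decide) (by decide)
  have e6 := key 2 3 6 5 (by decide) (by decide) (by decide) (by decide) (by decide)
  linarith [c 0 1, c 0 2, c 1 2]

theorem result : ¬ ∀ (n : ℕ) (S : PathSystem n), Consistent S → DiamTwo S → Monotone S →
    StrictlyMetric S := by
  intro h
  exact ex7_not_strict (h 7 ex7 ex7_consistent ex7_diam ex7_monotone)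

end Pool.Agent.Results.MP_bd2bbd_co.MonotoneNotStrictlyMetric
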